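import Mathlib
import Pool.Agent.H740R3.AQStmts

set_option autoImplicit false

open Finset

namespace Pool.Agent.H992R3.AQ

open Pool.Agent.H740R3.AQ

/-- the angles -/
noncomputable def th (K j : ℕ) : ℝ := ((j : ℝ) + 1) * Real.pi / ((K : ℝ) + 1)

/-- the unnormalised eigenvectors, index shifted by one -/
noncomputable def sv (K j k : ℕ) : ℝ := Real.sin ((k : ℝ) * th K j)

theorem sv_zero (K j : ℕ) : sv K j 0 = 0 := by simp [sv]

theorem sv_last (K j : ℕ) : sv K j (K + 1) = 0 := by
  unfold sv th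
  have : ((K + 1 : ℕ) : ℝ) * (((j : ℝ) + 1) * Real.pi / ((K : ℝ) + 1)) = ((j + 1 : ℕ) : ℝ) * Real.pi := by
    push_cast
    field_simp
  rw [this]
  exact Real.sin_nat_mul_pi _

theorem sv_rec (K j k : ℕ) :
    sv K j (k + 2) + sv K j k = 2 * Real.cos (th K j) * sv K j (k + 1) := by
  unfold sv
  have e1 : ((k + 2 : ℕ) : ℝ) * th K j = ((k + 1 : ℕ) : ℝ) * th K j + th K j := by push_cast; ring
  have e2 : (k : ℝ) * th K j = ((k + 1 : ℕ) : ℝ) * th K j - th K j := by push_cast; ring
  rw [e1, e2, Real.sin_add, Real.sin_sub]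
  ring

theorem th_pos (K j : ℕ) : 0 < th K j := by
  unfold th
  have := Real.pi_pos
  positivity

theorem th_lt (K j : ℕ) (hj : j < K) : th K j < Real.pi := by
  unfold th
  rw [div_lt_iff₀ (by positivity)]
  have h1 : (j : ℝ) + 1 < (K : ℝ) + 1 := by
    have : (j : ℝ) < K := by exact_mod_cast hj
    linarith
  have := mul_lt_mul_of_pos_right h1 Real.pi_pos
  linarith

theorem sv_one_pos (K j : ℕ) (hj : j < K) : 0 < sv K j 1 := by
  unfold sv
  simp only [Nat.cast_one, one_mul]
  exact Real.sin_pos_of_pos_of_lt_pi (th_pos K j) (th_lt K j hj)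

theorem cos_ne (K j l : ℕ) (hj : j < K) (hl : l < K) (hjl : j ≠ l) :
    Real.cos (th K j) ≠ Real.cos (th K l) := by
  intro h
  have h1 := Real.injOn_cos ⟨(th_pos K j).le, (th_lt K j hj).le⟩ ⟨(th_pos K l).le, (th_lt K l hl).le⟩ h
  unfold th at h1
  have hK : ((K : ℝ) + 1) ≠ 0 := by positivity
  rw [div_left_inj' hK] at h1
  have h2 := mul_right_cancel₀ Real.pi_ne_zero h1
  have h3 : (j : ℝ) = l := by linarith
  exact hjl (by exact_mod_cast h3)

theorem green (K j l m : ℕ) :
    (2 * Real.cos (th K j) - 2 * Real.cos (th K l)) *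
      ∑ k ∈ range m, sv K j (k + 1) * sv K l (k + 1) =
    sv K l m * sv K j (m + 1) - sv K j m * sv K l (m + 1) := by
  induction m with
  | zero => simp [sv_zero]
  | succ m ih =>
    rw [Finset.sum_range_succ, mul_add, ih]
    have h1 := sv_rec K j m
    have h2 := sv_rec K l m
    have e1 : (2 * Real.cos (th K j) - 2 * Real.cos (th K l)) * (sv K j (m + 1) * sv K l (m + 1)) =
        (2 * Real.cos (th K j) * sv K j (m + 1)) * sv K l (m + 1) -
        sv K j (m + 1) * (2 * Real.cos (th K l) * sv K l (m + 1)) := by ring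
    rw [e1, ← h1, ← h2]
    ring

theorem orth (K j l : ℕ) (hj : j < K) (hl : l < K) (hjl : j ≠ l) :
    ∑ k ∈ range K, sv K j (k + 1) * sv K l (k + 1) = 0 := by
  have h := green K j l K
  rw [sv_last, sv_last, mul_zero, mul_zero, sub_zero] at h
  have h1 : (2 * Real.cos (th K j) - 2 * Real.cos (th K l)) ≠ 0 := by
    intro h0
    exact cos_ne K j l hj hl hjl (by linarith)
  exact (mul_eq_zero.1 h).resolve_left h1

/-- squared norm -/
noncomputable def nn (K j : ℕ) : ℝ := ∑ k ∈ range K, sv K j (k + 1) * sv K j (k + 1)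

theorem nn_pos (K j : ℕ) (hj : j < K) : 0 < nn K j := by
  unfold nn
  apply Finset.sum_pos' (fun k _ => mul_self_nonneg _)
  exact ⟨0, Finset.mem_range.2 (by omega), by
    have := sv_one_pos K j hj
    simpa using mul_pos this this⟩

theorem taskPath : TaskPath := by
  intro K hK
  let φ : ℕ → ℕ → ℝ := fun j k => sv K j (k + 1) / Real.sqrt (nn K j)
  have hrow : ∀ j < K, ∀ l < K, ∑ k ∈ Finset.range K, φ j k * φ l k = if j = l then 1 else 0 := by
    intro j hj l hl
    have e : ∑ k ∈ Finset.range K, φ j k * φ l k =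
        (∑ k ∈ range K, sv K j (k + 1) * sv K l (k + 1)) / (Real.sqrt (nn K j) * Real.sqrt (nn K l)) := by
      rw [Finset.sum_div]
      refine Finset.sum_congr rfl fun k _ => ?_
      show sv K j (k + 1) / Real.sqrt (nn K j) * (sv K l (k + 1) / Real.sqrt (nn K l)) = _
      rw [div_mul_div_comm]
    rw [e]
    by_cases hjl : j = l
    · subst hjl
      rw [if_pos rfl, Real.mul_self_sqrt (nn_pos K j hj).le]
      exact div_self (nn_pos K j hj).ne'
    · rw [if_neg hjl, orth K j l hj hl hjl, zero_div]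
  refine ⟨φ, fun j => 2 * Real.cos (th K j), fun j => (-1) ^ j, hrow, ?_, ?_, ?_, ?_, ?_, ?_⟩
  · -- columns
    let M : Matrix (Fin K) (Fin K) ℝ := fun j k => φ j k
    have h1 : M * M.transpose = 1 := by
      ext j l
      rw [Matrix.mul_apply, Matrix.one_apply]
      have := hrow j j.2 l l.2
      rw [Finset.sum_range] at this
      simp only [Matrix.transpose_apply]
      show ∑ k : Fin K, φ j k * φ l k = _
      rw [this]
      by_cases h : j = l
      · subst h; simp
      · have h' : (j : ℕ) ≠ l := fun hh => h (Fin.ext hh)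
        simp [h, h']
    have h2 : M.transpose * M = 1 := mul_eq_one_comm.1 h1
    intro k hk l hl
    have h3 := congrFun (congrFun h2 ⟨k, hk⟩) ⟨l, hl⟩
    rw [Matrix.mul_apply, Matrix.one_apply] at h3
    simp only [Matrix.transpose_apply] at h3
    rw [Finset.sum_range]
    have h4 : ∑ j : Fin K, φ j k * φ j l = if (⟨k, hk⟩ : Fin K) = ⟨l, hl⟩ then (1 : ℝ) else 0 := h3
    rw [h4]
    simp only [Fin.mk.injEq]
  · intro j hj
    show sv K j (K + 1) / Real.sqrt (nn K j) = 0
    rw [sv_last, zero_div]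
  · intro j hj
    show sv K j (1 + 1) / Real.sqrt (nn K j) = 2 * Real.cos (th K j) * (sv K j (0 + 1) / Real.sqrt (nn K j))
    have := sv_rec K j 0
    rw [sv_zero, add_zero] at this
    rw [← mul_div_assoc]
    congr 1
  · intro j hj k hk
    show sv K j (k + 2 + 1) / Real.sqrt (nn K j) + sv K j (k + 1) / Real.sqrt (nn K j) =
      2 * Real.cos (th K j) * (sv K j (k + 1 + 1) / Real.sqrt (nn K j))
    have := sv_rec K j (k + 1)
    rw [← mul_div_assoc, ← add_div]
    congr 1
  · intro j hj k hk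
    show sv K j (K - 1 - k + 1) / Real.sqrt (nn K j) = (-1) ^ j * (sv K j (k + 1) / Real.sqrt (nn K j))
    rw [← mul_div_assoc]
    congr 1
    unfold sv
    have e : ((K - 1 - k + 1 : ℕ) : ℝ) * th K j = ((j + 1 : ℕ) : ℝ) * Real.pi - ((k + 1 : ℕ) : ℝ) * th K j := by
      have e1 : K - 1 - k + 1 = K - k := by omega
      rw [e1, Nat.cast_sub hk.le]
      unfold th
      push_cast
      field_simp
      ring
    rw [e, Real.sin_sub, Real.sin_nat_mul_pi, Real.cos_nat_mul_pi]
    ring
  · intro j hj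
    rcases Nat.even_or_odd j with h | h
    · left; exact h.neg_one_pow
    · right; exact h.neg_one_pow

end Pool.Agent.H992R3.AQ
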